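import Pool.Agent.H35.CF.Fib
import Pool.Agent.H57.AN.Ub
import Pool.Agent.H63.MA.ADivJ
import Pool.Agent.H63.MA.LBd

/-!
# H35-CF-CNT: pure counting of configurations (helper32)

* `om_nonneg`, `om_le_pow`, `om_one`: elementary bounds of the weights.
* `cnt_set`: the sum over the configurations of norm at most `Y` is at most a sum over `AF K Y`.
* `cnt_pow`: polynomial bounds of the weights `b ^ #(support)`. `cnt_ran`: few configurations have large support (Rankin).
* `mer1`: Mertens upper bound for one field.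
* `cnt_pat`: the configurations of norm at most `Y` with at most `M` large places (`nm v > T`) of each class outside `R`, weights `≤ b`, the large places of a
  class in `R` of total weight `≤ 1`: at most `C Y (log Y)^(#R - 1 + ε b #Λ) (log T)^(b #Λ)`. `cnt_pat_eps`: `T = exp ((log Y)^ε)`.
-/

set_option autoImplicit false

open scoped NumberField
open NumberField IsDedekindDomain H63.MA H57.AN
open scoped Classical

noncomputable section

namespace H35.CF

section wts

variable {V Λ : Type}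

theorem om_nonneg (Z : Finset V) (g : V → Λ → ℝ) (hg : ∀ v x, 0 ≤ g v x) (c : V → Option Λ) :
    0 ≤ om Z g c := by
  refine Finset.prod_nonneg fun v _ => ?_
  cases c v with
  | none => exact zero_le_one
  | some x => exact hg v x

theorem om_mono (Z : Finset V) (g g' : V → Λ → ℝ) (hg : ∀ v x, 0 ≤ g v x ∧ g v x ≤ g' v x)
    (c : V → Option Λ) : om Z g c ≤ om Z g' c := by
  refine Finset.prod_le_prod (fun v _ => ?_) fun v _ => ?_
  · cases c v with
    | none => exact zero_le_one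
    | some x => exact (hg v x).1
  · cases c v with
    | none => exact le_rfl
    | some x => exact (hg v x).2

theorem om_const (Z : Finset V) (b : ℝ) (c : V → Option Λ) :
    om Z (fun _ _ => b) c = b ^ (sp Z c).card := by
  rw [om_sp, ← Finset.prod_const]
  refine Finset.prod_congr rfl fun v hv => ?_
  rw [mem_sp] at hv
  cases h : c v with
  | none => exact absurd h hv.2
  | some x => rfl

theorem om_le_pow (Z : Finset V) (g : V → Λ → ℝ) (b : ℝ) (hg : ∀ v x, 0 ≤ g v x ∧ g v x ≤ b)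
    (c : V → Option Λ) : om Z g c ≤ b ^ (sp Z c).card :=
  (om_mono Z g (fun _ _ => b) hg c).trans (om_const Z b c).le

theorem om_one (Z : Finset V) (c : V → Option Λ) : om Z (fun _ _ => (1 : ℝ)) c = 1 := by
  rw [om_const, one_pow]

end wts

section cnt

variable (K : Type) [Field K] [NumberField K] (Λ : Type) [Fintype Λ]

variable {K Λ} in
theorem cnt_set (F : Finset (Pl K) → ℝ) (hF : ∀ s, 0 ≤ F s) (g : Pl K → Λ → ℝ)
    (hg : ∀ v x, 0 ≤ g v x) (Z : Finset (Pl K)) (Y : ℝ) :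
    ∑ c ∈ (Cf Z Λ).filter (fun c => nr (sp Z c) ≤ Y), F (sp Z c) * om Z g c ≤
      ∑ s ∈ AF K Y, F s * ∏ v ∈ s, ∑ x, g v x := by
  have hp : ∀ s : Finset (Pl K), 0 ≤ F s * ∏ v ∈ s, ∑ x, g v x := fun s =>
    mul_nonneg (hF s) (Finset.prod_nonneg fun v _ => Finset.sum_nonneg fun x _ => hg v x)
  calc ∑ c ∈ (Cf Z Λ).filter (fun c => nr (sp Z c) ≤ Y), F (sp Z c) * om Z g c
      = ∑ c ∈ Cf Z Λ, (fun s => if nr s ≤ Y then F s else 0) (sp Z c) * om Z g c := by
        rw [Finset.sum_filter]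
        refine Finset.sum_congr rfl fun c _ => ?_
        beta_reduce
        split_ifs
        · rfl
        · rw [zero_mul]
    _ = ∑ s ∈ Z.powerset, (if nr s ≤ Y then F s else 0) * ∏ v ∈ s, ∑ x, g v x :=
        cf_prod Z (fun s => if nr s ≤ Y then F s else 0) g
    _ = ∑ s ∈ Z.powerset.filter (fun s => nr s ≤ Y), F s * ∏ v ∈ s, ∑ x, g v x := by
        rw [Finset.sum_filter]
        refine Finset.sum_congr rfl fun s _ => ?_
        split_ifs
        · rfl
        · rw [zero_mul]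
    _ ≤ ∑ s ∈ AF K Y, F s * ∏ v ∈ s, ∑ x, g v x := by
        refine Finset.sum_le_sum_of_subset_of_nonneg ?_ fun s _ _ => hp s
        intro s hs
        rw [mem_AF]
        exact (Finset.mem_filter.1 hs).2

theorem cnt_pow (b : ℝ) (hb : 0 ≤ b) :
    ∃ C A : ℝ, 0 < C ∧ 0 ≤ A ∧ ∀ (Z : Finset (Pl K)) (Y : ℝ), 1 ≤ Y →
      ∑ c ∈ (Cf Z Λ).filter (fun c => nr (sp Z c) ≤ Y), b ^ (sp Z c).card ≤
        C * Y * (1 + Real.log Y) ^ A ∧
      ∑ c ∈ (Cf Z Λ).filter (fun c => nr (sp Z c) ≤ Y), b ^ (sp Z c).card * (nr (sp Z c))⁻¹ ≤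
        C * (1 + Real.log Y) ^ A := by
  obtain ⟨C, A, hC, hA, h⟩ := af_pow K (⌈b⌉₊ * Fintype.card Λ)
  refine ⟨C, A, hC, hA, fun Z Y hY => ?_⟩
  obtain ⟨h1, h2⟩ := h Y hY
  have hk : ∀ s : Finset (Pl K), b ^ s.card * ∏ v ∈ s, ∑ _x : Λ, (1 : ℝ) ≤
      ((⌈b⌉₊ * Fintype.card Λ : ℕ) : ℝ) ^ s.card := by
    intro s
    rw [Finset.prod_const, Finset.sum_const, Finset.card_univ, nsmul_eq_mul, mul_one, ← mul_pow]
    push_cast
    exact pow_le_pow_left₀ (mul_nonneg hb (Nat.cast_nonneg _))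
      (mul_le_mul_of_nonneg_right (Nat.le_ceil b) (Nat.cast_nonneg _)) _
  have hnr : ∀ s : Finset (Pl K), 0 < nr s := fun s => one_pos.trans_le (one_le_nr s)
  constructor
  · refine le_trans ?_ h1
    have h3 := cnt_set (fun s => b ^ s.card) (fun s => pow_nonneg hb _) (fun _ (_ : Λ) => (1 : ℝ))
      (fun _ _ => zero_le_one) Z Y
    simp only [om_one, mul_one] at h3
    refine h3.trans (Finset.sum_le_sum fun s _ => ?_)
    have := hk s
    simpa using this
  · refine le_trans ?_ h2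
    have h3 := cnt_set (fun s => b ^ s.card * (nr s)⁻¹)
      (fun s => mul_nonneg (pow_nonneg hb _) (inv_nonneg.2 (hnr s).le)) (fun _ (_ : Λ) => (1 : ℝ))
      (fun _ _ => zero_le_one) Z Y
    simp only [om_one, mul_one] at h3
    refine h3.trans (Finset.sum_le_sum fun s _ => ?_)
    have h4 := mul_le_mul_of_nonneg_right (hk s) (inv_nonneg.2 (hnr s).le)
    have h5 : b ^ s.card * (nr s)⁻¹ * ∏ v ∈ s, ∑ _x : Λ, (1 : ℝ) =
        (b ^ s.card * ∏ v ∈ s, ∑ _x : Λ, (1 : ℝ)) * (nr s)⁻¹ := by ring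
    rw [h5]
    exact h4

/-- few configurations have large support -/
theorem cnt_ran (b : ℝ) (hb : 0 ≤ b) (A : ℝ) :
    ∃ B C : ℝ, 0 < B ∧ 0 < C ∧ ∀ (Z : Finset (Pl K)) (Y : ℝ), 3 ≤ Y →
      ∑ c ∈ (Cf Z Λ).filter (fun c => nr (sp Z c) ≤ Y ∧
          B * (1 + Real.log (Real.log Y)) < ((sp Z c).card : ℝ)), b ^ (sp Z c).card ≤
        C * Y * Real.log Y ^ (-A) ∧
      ∑ c ∈ (Cf Z Λ).filter (fun c => nr (sp Z c) ≤ Y ∧
          B * (1 + Real.log (Real.log Y)) < ((sp Z c).card : ℝ)),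
          b ^ (sp Z c).card * (nr (sp Z c))⁻¹ ≤
        C * Real.log Y ^ (-A) := by
  obtain ⟨C, A', hC, hA', h⟩ := cnt_pow K Λ (b * Real.exp 1) (mul_nonneg hb (Real.exp_pos _).le)
  refine ⟨|A| + A' + 1, C * 2 ^ A', by positivity, by positivity, fun Z Y hY => ?_⟩
  obtain ⟨h1, h2⟩ := h Z Y (by linarith)
  have hY0 : (0 : ℝ) < Y := by linarith
  have hlY : 1 ≤ Real.log Y := by
    rw [Real.le_log_iff_exp_le hY0]
    exact (Real.exp_one_lt_d9.le.trans (by norm_num)).trans hY
  have hlY0 : 0 < Real.log Y := by linarith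
  have hll : 0 ≤ Real.log (Real.log Y) := Real.log_nonneg hlY
  have hAA : A ≤ |A| := le_abs_self A
  have hA0 : 0 ≤ |A| := abs_nonneg A
  have hfac : (1 + Real.log Y) ^ A' * Real.log Y ^ (-(|A| + A' + 1)) ≤
      2 ^ A' * Real.log Y ^ (-A) := by
    have e1 : (1 + Real.log Y) ^ A' ≤ 2 ^ A' * Real.log Y ^ A' := by
      rw [← Real.mul_rpow (by norm_num) hlY0.le]
      exact Real.rpow_le_rpow (by linarith) (by linarith) hA'
    calc (1 + Real.log Y) ^ A' * Real.log Y ^ (-(|A| + A' + 1))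
        ≤ 2 ^ A' * Real.log Y ^ A' * Real.log Y ^ (-(|A| + A' + 1)) :=
          mul_le_mul_of_nonneg_right e1 (Real.rpow_nonneg hlY0.le _)
      _ = 2 ^ A' * Real.log Y ^ (A' + -(|A| + A' + 1)) := by
          rw [mul_assoc, ← Real.rpow_add hlY0]
      _ ≤ 2 ^ A' * Real.log Y ^ (-A) :=
          mul_le_mul_of_nonneg_left (Real.rpow_le_rpow_of_exponent_le hlY (by linarith))
            (by positivity)
  have hpt : ∀ s : Finset (Pl K), (|A| + A' + 1) * (1 + Real.log (Real.log Y)) < (s.card : ℝ) →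
      b ^ s.card ≤ (b * Real.exp 1) ^ s.card * Real.log Y ^ (-(|A| + A' + 1)) := by
    intro s hs
    have e1 : b ^ s.card = (b * Real.exp 1) ^ s.card * Real.exp (-(s.card : ℝ)) := by
      rw [mul_pow, ← Real.exp_nat_mul, mul_one, mul_assoc, ← Real.exp_add, add_neg_cancel,
        Real.exp_zero, mul_one]
    rw [e1]
    refine mul_le_mul_of_nonneg_left ?_ (by positivity)
    rw [Real.rpow_def_of_pos hlY0, Real.exp_le_exp]
    nlinarith
  have hmem : ∀ c ∈ (Cf Z Λ).filter (fun c => nr (sp Z c) ≤ Y ∧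
      (|A| + A' + 1) * (1 + Real.log (Real.log Y)) < ((sp Z c).card : ℝ)),
      (|A| + A' + 1) * (1 + Real.log (Real.log Y)) < ((sp Z c).card : ℝ) :=
    fun c hc => (Finset.mem_filter.1 hc).2.2
  have hsub : (Cf Z Λ).filter (fun c => nr (sp Z c) ≤ Y ∧
      (|A| + A' + 1) * (1 + Real.log (Real.log Y)) < ((sp Z c).card : ℝ)) ⊆
      (Cf Z Λ).filter (fun c => nr (sp Z c) ≤ Y) := by
    intro c hc
    rw [Finset.mem_filter] at hc ⊢
    exact ⟨hc.1, hc.2.1⟩
  have hbe : 0 ≤ b * Real.exp 1 := mul_nonneg hb (Real.exp_pos _).le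
  have hnr : ∀ s : Finset (Pl K), 0 < nr s := fun s => one_pos.trans_le (one_le_nr s)
  have hlr : 0 ≤ Real.log Y ^ (-(|A| + A' + 1)) := Real.rpow_nonneg hlY0.le _
  constructor
  · calc ∑ c ∈ (Cf Z Λ).filter (fun c => nr (sp Z c) ≤ Y ∧
          (|A| + A' + 1) * (1 + Real.log (Real.log Y)) < ((sp Z c).card : ℝ)), b ^ (sp Z c).card
        ≤ ∑ c ∈ (Cf Z Λ).filter (fun c => nr (sp Z c) ≤ Y ∧
          (|A| + A' + 1) * (1 + Real.log (Real.log Y)) < ((sp Z c).card : ℝ)),
          (b * Real.exp 1) ^ (sp Z c).card * Real.log Y ^ (-(|A| + A' + 1)) :=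
          Finset.sum_le_sum fun c hc => hpt _ (hmem c hc)
      _ ≤ ∑ c ∈ (Cf Z Λ).filter (fun c => nr (sp Z c) ≤ Y),
          (b * Real.exp 1) ^ (sp Z c).card * Real.log Y ^ (-(|A| + A' + 1)) :=
          Finset.sum_le_sum_of_subset_of_nonneg hsub fun c _ _ =>
            mul_nonneg (pow_nonneg hbe _) hlr
      _ ≤ C * Y * (1 + Real.log Y) ^ A' * Real.log Y ^ (-(|A| + A' + 1)) := by
          rw [← Finset.sum_mul]
          exact mul_le_mul_of_nonneg_right h1 hlr
      _ ≤ C * 2 ^ A' * Y * Real.log Y ^ (-A) := by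
          have e1 := mul_le_mul_of_nonneg_left hfac (mul_nonneg hC.le hY0.le)
          nlinarith
  · calc ∑ c ∈ (Cf Z Λ).filter (fun c => nr (sp Z c) ≤ Y ∧
          (|A| + A' + 1) * (1 + Real.log (Real.log Y)) < ((sp Z c).card : ℝ)),
          b ^ (sp Z c).card * (nr (sp Z c))⁻¹
        ≤ ∑ c ∈ (Cf Z Λ).filter (fun c => nr (sp Z c) ≤ Y ∧
          (|A| + A' + 1) * (1 + Real.log (Real.log Y)) < ((sp Z c).card : ℝ)),
          (b * Real.exp 1) ^ (sp Z c).card * (nr (sp Z c))⁻¹ *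
            Real.log Y ^ (-(|A| + A' + 1)) := by
          refine Finset.sum_le_sum fun c hc => ?_
          have e1 := mul_le_mul_of_nonneg_right (hpt _ (hmem c hc)) (inv_nonneg.2 (hnr (sp Z c)).le)
          nlinarith
      _ ≤ ∑ c ∈ (Cf Z Λ).filter (fun c => nr (sp Z c) ≤ Y),
          (b * Real.exp 1) ^ (sp Z c).card * (nr (sp Z c))⁻¹ *
            Real.log Y ^ (-(|A| + A' + 1)) :=
          Finset.sum_le_sum_of_subset_of_nonneg hsub fun c _ _ =>
            mul_nonneg (mul_nonneg (pow_nonneg hbe _) (inv_nonneg.2 (hnr _).le)) hlr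
      _ ≤ C * (1 + Real.log Y) ^ A' * Real.log Y ^ (-(|A| + A' + 1)) := by
          rw [← Finset.sum_mul]
          exact mul_le_mul_of_nonneg_right h2 hlr
      _ ≤ C * 2 ^ A' * Real.log Y ^ (-A) := by
          have e1 := mul_le_mul_of_nonneg_left hfac hC.le
          nlinarith

end cnt

section mertens

variable (K : Type) [Field K] [NumberField K]

/-- Mertens upper bound -/
theorem mer1 : ∃ C : ℝ, 0 ≤ C ∧ ∀ Y : ℝ, 3 ≤ Y →
    ∑ w ∈ PB K Y, (1 : ℝ) / nm w ≤ Real.log (Real.log Y) + C := by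
  obtain ⟨C₁, hC₁, h₁⟩ := mer (Module.finrank ℚ K)
  obtain ⟨C₂, h₂⟩ := pz_all K
  refine ⟨2 * C₁ + |C₂|, by positivity, ?_⟩
  intro Y hY
  have hY0 : (0 : ℝ) < Y := by linarith
  have hlY : 1 ≤ Real.log Y := by
    rw [Real.le_log_iff_exp_le hY0]
    exact (Real.exp_one_lt_d9.le.trans (by norm_num)).trans hY
  have hlY0 : 0 < Real.log Y := by linarith
  set η : ℝ := 1 / Real.log Y with hη
  have hη0 : 0 < η := by positivity
  have hη1 : η ≤ 1 := by
    rw [hη, div_le_one hlY0]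
    exact hlY
  have hnm : ∀ w : Pl K, (2 : ℝ) ≤ (nm w : ℝ) := fun w => by exact_mod_cast one_lt_nm w
  have s1 : ∑ w ∈ PB K Y, (1 : ℝ) / nm w ≤
      ∑ w ∈ PB K Y, (nm w : ℝ) ^ (-(1 + η)) + 2 * C₁ := by
    have h4 : ∀ w ∈ PB K Y, (1 : ℝ) / nm w ≤ (nm w : ℝ) ^ (-(1 + η)) + η * (Real.log (nm w) / nm w) := by
      intro w _
      have hw := hnm w
      have hw0 : (0 : ℝ) < nm w := by linarith
      have e1 : (nm w : ℝ) ^ (-(1 + η)) = 1 / (nm w : ℝ) * Real.exp (-(η * Real.log (nm w))) := by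
        rw [Real.rpow_def_of_pos hw0]
        have : (1 : ℝ) / (nm w : ℝ) = Real.exp (-Real.log (nm w)) := by
          rw [Real.exp_neg, Real.exp_log hw0, one_div]
        rw [this, ← Real.exp_add]
        congr 1
        ring
      have e2 := Real.add_one_le_exp (-(η * Real.log (nm w)))
      have e3 : 1 / (nm w : ℝ) * (-(η * Real.log (nm w)) + 1) ≤
          1 / (nm w : ℝ) * Real.exp (-(η * Real.log (nm w))) :=
        mul_le_mul_of_nonneg_left e2 (by positivity)
      rw [e1]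
      have e4 : 1 / (nm w : ℝ) * (-(η * Real.log (nm w)) + 1) = 1 / (nm w : ℝ) - η * (Real.log (nm w) / nm w) := by
        ring
      linarith
    have h5 := Finset.sum_le_sum h4
    rw [Finset.sum_add_distrib, ← Finset.mul_sum] at h5
    have h6 := h₁ K rfl Y (by linarith)
    have h7 : η * ∑ w ∈ PB K Y, Real.log (nm w) / nm w ≤ 2 * C₁ := by
      calc η * ∑ w ∈ PB K Y, Real.log (nm w) / nm w ≤ η * (C₁ * (1 + Real.log Y)) :=
            mul_le_mul_of_nonneg_left h6 hη0.le
        _ = C₁ * (η + 1) := by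
            rw [hη]
            field_simp
        _ ≤ C₁ * 2 := mul_le_mul_of_nonneg_left (by linarith) (by linarith)
        _ = 2 * C₁ := by ring
    linarith
  have s2 : ∑ w ∈ PB K Y, (nm w : ℝ) ^ (-(1 + η)) ≤ PZ (Set.univ : Set (Pl K)) (1 + η) := by
    unfold PZ
    simp only [Set.indicator_univ]
    exact (pz_summable K (by linarith)).sum_le_tsum _ fun w _ => by positivity
  have s3 := (abs_le.1 (h₂ (1 + η) (by linarith) (by linarith))).2
  have s4 : (1 : ℝ) / (1 + η - 1) = Real.log Y := by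
    rw [add_sub_cancel_left, hη, one_div_one_div]
  rw [s4] at s3
  have := le_abs_self C₂
  linarith

end mertens

section pat

variable (K : Type) [Field K] [NumberField K] (Λ : Type) [Fintype Λ]

theorem cnt_pat {N : ℕ} (cls : Λ → Fin N) (R : Finset (Fin N)) (b : ℝ) (hb : 0 ≤ b) (M : ℕ)
    (ε : ℝ) (hε : 0 < ε) (hε1 : ε ≤ 1) :
    ∃ C : ℝ, 0 < C ∧ ∀ (Z : Finset (Pl K)) (Y T : ℝ), 3 ≤ Y → 3 ≤ T → ∀ g : Pl K → Λ → ℝ,
      (∀ v x, 0 ≤ g v x ∧ g v x ≤ b) →
      (∀ v, T < nm v → ∀ i ∈ R, ∑ x ∈ Finset.univ.filter (fun x => cls x = i), g v x ≤ 1) →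
      ∑ c ∈ (Cf Z Λ).filter (fun c => nr (sp Z c) ≤ Y ∧ ∀ i, i ∉ R →
          (Z.filter fun v => T < nm v ∧ ∃ x, c v = some x ∧ cls x = i).card ≤ M), om Z g c ≤
        C * Y * Real.log Y ^ ((R.card : ℝ) - 1 + ε * (b * Fintype.card Λ)) *
          Real.log T ^ (b * Fintype.card Λ) := by
  obtain ⟨L, hL⟩ : ∃ L : ℝ, L = b * Fintype.card Λ := ⟨_, rfl⟩
  have hL0 : 0 ≤ L := by
    rw [hL]
    positivity
  rw [← hL]
  obtain ⟨C₁, hC₁, h₁⟩ := ub K (R.card + L) (by positivity)
  obtain ⟨C₂, hC₂, h₂⟩ := mer1 K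
  refine ⟨(ε ^ (N * M))⁻¹ * C₁ * Real.exp ((R.card + ε * L) * C₂ + L * C₂), by positivity, ?_⟩
  intro Z Y T hY hT g hg hgR
  have hY0 : (0 : ℝ) < Y := by linarith
  have hlY : 1 ≤ Real.log Y := by
    rw [Real.le_log_iff_exp_le hY0]
    exact (Real.exp_one_lt_d9.le.trans (by norm_num)).trans hY
  have hlY0 : 0 < Real.log Y := by linarith
  have hlT : 1 ≤ Real.log T := by
    rw [Real.le_log_iff_exp_le (by linarith)]
    exact (Real.exp_one_lt_d9.le.trans (by norm_num)).trans hT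
  have hlT0 : 0 < Real.log T := by linarith
  obtain ⟨g', hg'⟩ : ∃ g' : Pl K → Λ → ℝ, g' = fun v x =>
      if T < nm v ∧ cls x ∉ R then ε * g v x else g v x := ⟨_, rfl⟩
  obtain ⟨f, hf⟩ : ∃ f : Pl K → ℝ, f = fun v => if T < nm v then R.card + ε * L else L := ⟨_, rfl⟩
  have hg'0 : ∀ v x, 0 ≤ g' v x := by
    intro v x
    rw [hg']
    beta_reduce
    split_ifs
    · exact mul_nonneg hε.le (hg v x).1
    · exact (hg v x).1
  have hgs : ∀ v, ∀ S : Finset Λ, ∑ x ∈ S, g v x ≤ L := by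
    intro v S
    calc ∑ x ∈ S, g v x ≤ ∑ x, g v x :=
          Finset.sum_le_sum_of_subset_of_nonneg (Finset.subset_univ _) fun x _ _ => (hg v x).1
      _ ≤ ∑ _x : Λ, b := Finset.sum_le_sum fun x _ => (hg v x).2
      _ = L := by
          rw [Finset.sum_const, Finset.card_univ, nsmul_eq_mul, hL, mul_comm]
  have hsum : ∀ v, ∑ x, g' v x ≤ f v := by
    intro v
    rw [hg', hf]
    beta_reduce
    by_cases hv : T < nm v
    · rw [if_pos hv]
      simp only [hv, true_and]
      rw [← Finset.sum_filter_add_sum_filter_not Finset.univ (fun x => cls x ∈ R)]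
      refine add_le_add ?_ ?_
      · have e1 : ∑ x ∈ Finset.univ.filter (fun x => cls x ∈ R),
            (if cls x ∉ R then ε * g v x else g v x) =
            ∑ i ∈ R, ∑ x ∈ Finset.univ.filter (fun x => cls x = i), g v x := by
          rw [← Finset.sum_fiberwise_of_maps_to (s := Finset.univ.filter (fun x => cls x ∈ R))
            (t := R) (g := cls) (fun x hx => (Finset.mem_filter.1 hx).2)]
          refine Finset.sum_congr rfl fun i hi => ?_
          have e2 : (Finset.univ.filter (fun x => cls x ∈ R)).filter (fun x => cls x = i) =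
              Finset.univ.filter (fun x => cls x = i) := by
            ext x
            simp only [Finset.mem_filter, Finset.mem_univ, true_and]
            constructor
            · exact fun h => h.2
            · exact fun h => ⟨h ▸ hi, h⟩
          rw [e2]
          refine Finset.sum_congr rfl fun x hx => ?_
          rw [if_neg]
          rw [not_not, (Finset.mem_filter.1 hx).2]
          exact hi
        rw [e1]
        calc ∑ i ∈ R, ∑ x ∈ Finset.univ.filter (fun x => cls x = i), g v x ≤ ∑ _i ∈ R, (1 : ℝ) :=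
              Finset.sum_le_sum fun i hi => hgR v hv i hi
          _ = R.card := by rw [Finset.sum_const, nsmul_eq_mul, mul_one]
      · have e1 : ∑ x ∈ Finset.univ.filter (fun x => ¬ cls x ∈ R),
            (if cls x ∉ R then ε * g v x else g v x) =
            ε * ∑ x ∈ Finset.univ.filter (fun x => ¬ cls x ∈ R), g v x := by
          rw [Finset.mul_sum]
          refine Finset.sum_congr rfl fun x hx => ?_
          rw [if_pos (Finset.mem_filter.1 hx).2]
        rw [e1]
        exact mul_le_mul_of_nonneg_left (hgs v _) hε.le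
    · rw [if_neg hv]
      simp only [hv, false_and, if_false]
      exact hgs v _
  have hom : ∀ c ∈ (Cf Z Λ).filter (fun c => nr (sp Z c) ≤ Y ∧ ∀ i, i ∉ R →
      (Z.filter fun v => T < nm v ∧ ∃ x, c v = some x ∧ cls x = i).card ≤ M),
      om Z g c ≤ (ε ^ (N * M))⁻¹ * om Z g' c := by
    intro c hc
    have hM := (Finset.mem_filter.1 hc).2.2
    have e1 : om Z g' c =
        ε ^ (Z.filter fun v => T < nm v ∧ ∃ x, c v = some x ∧ cls x ∉ R).card * om Z g c := by
      unfold om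
      rw [← Finset.prod_const, Finset.prod_filter, ← Finset.prod_mul_distrib]
      refine Finset.prod_congr rfl fun v _ => ?_
      rw [hg']
      cases hcv : c v with
      | none => simp
      | some x =>
        simp only [Option.elim_some, Option.some.injEq, exists_eq_left']
        split_ifs
        · rfl
        · rw [one_mul]
    have e2 : (Z.filter fun v => T < nm v ∧ ∃ x, c v = some x ∧ cls x ∉ R).card ≤ N * M := by
      have e3 : (Z.filter fun v => T < nm v ∧ ∃ x, c v = some x ∧ cls x ∉ R) ⊆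
          (Finset.univ.filter fun i => i ∉ R).biUnion fun i =>
            Z.filter fun v => T < nm v ∧ ∃ x, c v = some x ∧ cls x = i := by
        intro v hv
        rw [Finset.mem_filter] at hv
        obtain ⟨h3, h4, x, h5, h6⟩ := hv
        rw [Finset.mem_biUnion]
        exact ⟨cls x, Finset.mem_filter.2 ⟨Finset.mem_univ _, h6⟩,
          Finset.mem_filter.2 ⟨h3, h4, x, h5, rfl⟩⟩
      refine (Finset.card_le_card e3).trans (Finset.card_biUnion_le.trans ?_)
      refine (Finset.sum_le_card_nsmul _ _ M fun i hi => hM i (Finset.mem_filter.1 hi).2).trans ?_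
      rw [smul_eq_mul]
      refine Nat.mul_le_mul_right M ?_
      exact (Finset.card_le_univ _).trans (by rw [Fintype.card_fin])
    rw [e1]
    have e4 : ε ^ (N * M) ≤ ε ^ (Z.filter fun v => T < nm v ∧ ∃ x, c v = some x ∧ cls x ∉ R).card :=
      pow_le_pow_of_le_one hε.le hε1 e2
    have e5 : 0 < ε ^ (N * M) := pow_pos hε _
    have e6 : 0 ≤ om Z g c := om_nonneg Z g (fun v x => (hg v x).1) c
    calc om Z g c = (ε ^ (N * M))⁻¹ * (ε ^ (N * M) * om Z g c) := by
          rw [← mul_assoc, inv_mul_cancel₀ e5.ne', one_mul]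
      _ ≤ _ := mul_le_mul_of_nonneg_left (mul_le_mul_of_nonneg_right e4 e6) (inv_nonneg.2 e5.le)
  have hf0 : ∀ v, 0 ≤ f v ∧ f v ≤ R.card + L := by
    intro v
    rw [hf]
    beta_reduce
    have e1 : ε * L ≤ L := by nlinarith
    have e2 : (0 : ℝ) ≤ R.card := Nat.cast_nonneg _
    have e3 : 0 ≤ ε * L := mul_nonneg hε.le hL0
    split_ifs
    · constructor <;> linarith
    · constructor <;> linarith
  have hexp : ∑ v ∈ PB K Y, f v / nm v ≤
      (R.card + ε * L) * (Real.log (Real.log Y) + C₂) + L * (Real.log (Real.log T) + C₂) := by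
    have e1 : ∀ v ∈ PB K Y, f v / nm v ≤ (R.card + ε * L) * (1 / nm v) +
        (if (nm v : ℝ) ≤ T then L * (1 / nm v) else 0) := by
      intro v _
      rw [hf]
      beta_reduce
      have e2 : (0 : ℝ) ≤ R.card := Nat.cast_nonneg _
      have e3 : 0 ≤ ε * L := mul_nonneg hε.le hL0
      by_cases hv : T < nm v
      · rw [if_pos hv, if_neg (not_le.2 hv), add_zero, mul_one_div]
      · rw [if_neg hv, if_pos (not_lt.1 hv), mul_one_div, mul_one_div]
        have e4 : 0 ≤ (R.card + ε * L) / (nm v : ℝ) := by positivity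
        linarith
    refine (Finset.sum_le_sum e1).trans ?_
    rw [Finset.sum_add_distrib, ← Finset.mul_sum, ← Finset.sum_filter, ← Finset.mul_sum]
    refine add_le_add (mul_le_mul_of_nonneg_left (h₂ Y hY) (by positivity))
      (mul_le_mul_of_nonneg_left ?_ hL0)
    refine le_trans (Finset.sum_le_sum_of_subset_of_nonneg ?_ fun v _ _ => by positivity) (h₂ T hT)
    intro v hv
    rw [mem_PB]
    exact (Finset.mem_filter.1 hv).2
  calc ∑ c ∈ (Cf Z Λ).filter (fun c => nr (sp Z c) ≤ Y ∧ ∀ i, i ∉ R →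
          (Z.filter fun v => T < nm v ∧ ∃ x, c v = some x ∧ cls x = i).card ≤ M), om Z g c
      ≤ ∑ c ∈ (Cf Z Λ).filter (fun c => nr (sp Z c) ≤ Y ∧ ∀ i, i ∉ R →
          (Z.filter fun v => T < nm v ∧ ∃ x, c v = some x ∧ cls x = i).card ≤ M),
          (ε ^ (N * M))⁻¹ * om Z g' c := Finset.sum_le_sum hom
    _ ≤ ∑ c ∈ (Cf Z Λ).filter (fun c => nr (sp Z c) ≤ Y), (ε ^ (N * M))⁻¹ * om Z g' c := by
        refine Finset.sum_le_sum_of_subset_of_nonneg ?_ fun c _ _ =>
          mul_nonneg (by positivity) (om_nonneg Z g' hg'0 c)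
        intro c hc
        rw [Finset.mem_filter] at hc ⊢
        exact ⟨hc.1, hc.2.1⟩
    _ ≤ (ε ^ (N * M))⁻¹ * ∑ s ∈ AF K Y, ∏ v ∈ s, f v := by
        rw [← Finset.mul_sum]
        refine mul_le_mul_of_nonneg_left ?_ (by positivity)
        have e1 := cnt_set (fun _ => (1 : ℝ)) (fun _ => zero_le_one) g' hg'0 Z Y
        simp only [one_mul] at e1
        refine e1.trans (Finset.sum_le_sum fun s _ => ?_)
        exact Finset.prod_le_prod (fun v _ => Finset.sum_nonneg fun x _ => hg'0 v x)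
          fun v _ => hsum v
    _ ≤ (ε ^ (N * M))⁻¹ * (C₁ * (Y / Real.log Y) * Real.exp (∑ v ∈ PB K Y, f v / nm v)) :=
        mul_le_mul_of_nonneg_left (h₁ f hf0 Y (by linarith)) (by positivity)
    _ ≤ (ε ^ (N * M))⁻¹ * (C₁ * (Y / Real.log Y) * Real.exp
          ((R.card + ε * L) * (Real.log (Real.log Y) + C₂) + L * (Real.log (Real.log T) + C₂))) := by
        refine mul_le_mul_of_nonneg_left ?_ (by positivity)
        exact mul_le_mul_of_nonneg_left (Real.exp_le_exp.2 hexp) (by positivity)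
    _ = _ := by
        have e1 : Real.exp ((R.card + ε * L) * (Real.log (Real.log Y) + C₂) +
            L * (Real.log (Real.log T) + C₂)) =
            Real.log Y ^ ((R.card : ℝ) + ε * L) * Real.log T ^ L *
              Real.exp ((R.card + ε * L) * C₂ + L * C₂) := by
          rw [Real.rpow_def_of_pos hlY0, Real.rpow_def_of_pos hlT0, ← Real.exp_add, ← Real.exp_add]
          congr 1
          ring
        have e2 : Real.log Y ^ ((R.card : ℝ) + ε * L) =
            Real.log Y * Real.log Y ^ ((R.card : ℝ) - 1 + ε * L) := by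
          nth_rewrite 2 [← Real.rpow_one (Real.log Y)]
          rw [← Real.rpow_add hlY0]
          congr 1
          ring
        rw [e1, e2]
        field_simp

theorem cnt_pat_eps {N : ℕ} (cls : Λ → Fin N) (R : Finset (Fin N)) (b : ℝ) (hb : 0 ≤ b) (M : ℕ)
    (ε : ℝ) (hε : 0 < ε) (hε1 : ε ≤ 1) :
    ∃ C : ℝ, 0 < C ∧ ∀ (Z : Finset (Pl K)) (Y : ℝ), 3 ≤ Y → ∀ g : Pl K → Λ → ℝ,
      (∀ v x, 0 ≤ g v x ∧ g v x ≤ b) →
      (∀ v, Real.exp (Real.log Y ^ ε) < nm v → ∀ i ∈ R,
        ∑ x ∈ Finset.univ.filter (fun x => cls x = i), g v x ≤ 1) →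
      ∑ c ∈ (Cf Z Λ).filter (fun c => nr (sp Z c) ≤ Y ∧ ∀ i, i ∉ R →
          (Z.filter fun v => Real.exp (Real.log Y ^ ε) < nm v ∧
            ∃ x, c v = some x ∧ cls x = i).card ≤ M), om Z g c ≤
        C * Y * Real.log Y ^ ((R.card : ℝ) - 1 + 2 * ε * (b * Fintype.card Λ)) := by
  obtain ⟨C, hC, h⟩ := cnt_pat K Λ cls R b hb M ε hε hε1
  obtain ⟨L, hL⟩ : ∃ L : ℝ, L = b * Fintype.card Λ := ⟨_, rfl⟩
  have hL0 : 0 ≤ L := by
    rw [hL]
    positivity
  rw [← hL] at h ⊢
  refine ⟨C * Real.log 3 ^ L, by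
    have : 0 < Real.log 3 := Real.log_pos (by norm_num)
    positivity, ?_⟩
  intro Z Y hY g hg hgR
  have hY0 : (0 : ℝ) < Y := by linarith
  have hlY : 1 ≤ Real.log Y := by
    rw [Real.le_log_iff_exp_le hY0]
    exact (Real.exp_one_lt_d9.le.trans (by norm_num)).trans hY
  have hlY0 : 0 < Real.log Y := by linarith
  have hl3 : 1 ≤ Real.log 3 := by
    rw [Real.le_log_iff_exp_le (by norm_num)]
    exact Real.exp_one_lt_d9.le.trans (by norm_num)
  have hlε : 1 ≤ Real.log Y ^ ε := Real.one_le_rpow hlY hε.le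
  have hle : Real.exp (Real.log Y ^ ε) ≤ max (Real.exp (Real.log Y ^ ε)) 3 := le_max_left _ _
  have h1 := h Z Y (max (Real.exp (Real.log Y ^ ε)) 3) hY (le_max_right _ _) g hg
    (fun v hv => hgR v (hle.trans_lt hv))
  have h2 : Real.log (max (Real.exp (Real.log Y ^ ε)) 3) ≤ Real.log 3 * Real.log Y ^ ε := by
    rcases le_total (Real.exp (Real.log Y ^ ε)) 3 with h3 | h3
    · rw [max_eq_right h3]
      nlinarith
    · rw [max_eq_left h3, Real.log_exp]
      nlinarith
  have h3 : 0 ≤ Real.log (max (Real.exp (Real.log Y ^ ε)) 3) :=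
    Real.log_nonneg ((by norm_num : (1 : ℝ) ≤ 3).trans (le_max_right _ _))
  calc ∑ c ∈ (Cf Z Λ).filter (fun c => nr (sp Z c) ≤ Y ∧ ∀ i, i ∉ R →
          (Z.filter fun v => Real.exp (Real.log Y ^ ε) < nm v ∧
            ∃ x, c v = some x ∧ cls x = i).card ≤ M), om Z g c
      ≤ ∑ c ∈ (Cf Z Λ).filter (fun c => nr (sp Z c) ≤ Y ∧ ∀ i, i ∉ R →
          (Z.filter fun v => max (Real.exp (Real.log Y ^ ε)) 3 < nm v ∧
            ∃ x, c v = some x ∧ cls x = i).card ≤ M), om Z g c := by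
        refine Finset.sum_le_sum_of_subset_of_nonneg ?_ fun c _ _ =>
          om_nonneg Z g (fun v x => (hg v x).1) c
        intro c hc
        rw [Finset.mem_filter] at hc ⊢
        refine ⟨hc.1, hc.2.1, fun i hi => le_trans (Finset.card_le_card ?_) (hc.2.2 i hi)⟩
        intro v hv
        rw [Finset.mem_filter] at hv ⊢
        exact ⟨hv.1, hle.trans_lt hv.2.1, hv.2.2⟩
    _ ≤ _ := h1
    _ ≤ C * Y * Real.log Y ^ ((R.card : ℝ) - 1 + ε * L) * (Real.log 3 * Real.log Y ^ ε) ^ L := by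
        refine mul_le_mul_of_nonneg_left (Real.rpow_le_rpow h3 h2 hL0) ?_
        have := Real.rpow_nonneg hlY0.le ((R.card : ℝ) - 1 + ε * L)
        positivity
    _ = _ := by
        rw [Real.mul_rpow (by linarith) (by linarith), ← Real.rpow_mul hlY0.le]
        have e2 : Real.log Y ^ ((R.card : ℝ) - 1 + 2 * ε * L) =
            Real.log Y ^ ((R.card : ℝ) - 1 + ε * L) * Real.log Y ^ (ε * L) := by
          rw [← Real.rpow_add hlY0]
          congr 1
          ring
        rw [e2]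
        ring

end pat

end H35.CF
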