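import Pool.Agent.H35.CF.Defs

/-!
# [H35 CF FIB] the fibre lemma

* `cf_fib`: sum over the configurations `c` with labels in `Λ`, grouped by the image `c' = mp π c`: for `c'` fixed the sum over the `c` above `c'` of a product
  of local weights (which may depend on `c'`) is the product of the local sums (`Finset.prod_sum`; the configurations above `c'` are the choices of a label in
  `π⁻¹ (c' v)` for each `v` of the support).
* `cf_prod`: the case `Λ' = Unit` written with finite sets: `∑_c om Z a c = ∑_{s ⊆ Z} ∏_{v ∈ s} ∑_x a v x`.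
-/

set_option autoImplicit false

open scoped Classical

noncomputable section

namespace H35.CF

variable {V Λ Λ' : Type} [Fintype Λ] [Fintype Λ']

/-- the product formula for the configurations with `c v ∈ T v` -/
private theorem cf_sum {R : Type} [CommSemiring R] (Z : Finset V) (T : V → Finset (Option Λ))
    (g : V → Option Λ → R) :
    ∑ c ∈ (Cf Z Λ).filter (fun c => ∀ v ∈ Z, c v ∈ T v), ∏ v ∈ Z, g v (c v) =
      ∏ v ∈ Z, ∑ o ∈ T v, g v o := by
  rw [← Finset.prod_coe_sort Z (fun v => ∑ o ∈ T v, g v o), Finset.prod_univ_sum]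
  refine Finset.sum_nbij' (fun c => fun v : Z => c v)
    (fun f v => if h : v ∈ Z then f ⟨v, h⟩ else none) ?_ ?_ ?_ ?_ ?_
  · intro c hc
    rw [Finset.mem_filter] at hc
    rw [Fintype.mem_piFinset]
    exact fun v => hc.2 v v.2
  · intro f hf
    rw [Fintype.mem_piFinset] at hf
    rw [Finset.mem_filter, mem_cf]
    refine ⟨fun v hv => dif_neg hv, fun v hv => ?_⟩
    beta_reduce
    rw [dif_pos hv]
    exact hf ⟨v, hv⟩
  · intro c hc
    rw [Finset.mem_filter, mem_cf] at hc
    funext v
    by_cases hv : v ∈ Z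
    · simp only [dif_pos hv]
    · simp only [dif_neg hv]
      exact (hc.1 v hv).symm
  · intro f hf
    funext v
    simp only [Finset.coe_mem, dif_pos]
  · intro c hc
    exact (Finset.prod_coe_sort Z (fun v => g v (c v))).symm

omit [Fintype Λ'] in
private theorem loc_sum {R : Type} [CommSemiring R] (π : Λ → Λ') (b : Λ → R) (o' : Option Λ') :
    ∑ o ∈ (Finset.univ : Finset (Option Λ)).filter (fun o => o.map π = o'), o.elim 1 b =
      o'.elim 1 (fun y => ∑ x ∈ Finset.univ.filter (fun x => π x = y), b x) := by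
  rw [Finset.sum_filter, Fintype.sum_option]
  cases o' with
  | none => simp
  | some y => simp [Finset.sum_filter]

private theorem fib_one {R : Type} [CommSemiring R] (Z : Finset V) (π : Λ → Λ')
    (b : V → Λ → R) (c' : V → Option Λ') (hc' : c' ∈ Cf Z Λ') :
    ∑ c ∈ (Cf Z Λ).filter (fun c => mp π c = c'), om Z b c =
      om Z (fun v y => ∑ x ∈ Finset.univ.filter (fun x => π x = y), b v x) c' := by
  have h1 : (Cf Z Λ).filter (fun c => mp π c = c') = (Cf Z Λ).filter (fun c => ∀ v ∈ Z,
      c v ∈ (Finset.univ : Finset (Option Λ)).filter (fun o => o.map π = c' v)) := by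
    refine Finset.filter_congr fun c hc => ?_
    rw [mem_cf] at hc hc'
    constructor
    · rintro h v hv
      rw [Finset.mem_filter]
      exact ⟨Finset.mem_univ _, congrFun h v⟩
    · intro h
      funext v
      by_cases hv : v ∈ Z
      · exact (Finset.mem_filter.1 (h v hv)).2
      · show (c v).map π = c' v
        rw [hc v hv, hc' v hv]
        rfl
  rw [h1]
  refine (cf_sum Z _ (fun v o => o.elim 1 (b v))).trans ?_
  exact Finset.prod_congr rfl fun v _ => loc_sum π (b v) (c' v)

theorem cf_fib {R : Type} [CommSemiring R] (Z : Finset V) (π : Λ → Λ')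
    (F : (V → Option Λ') → R) (a : (V → Option Λ') → V → Λ → R) :
    ∑ c ∈ Cf Z Λ, F (mp π c) * om Z (a (mp π c)) c =
      ∑ c ∈ Cf Z Λ', F c * om Z (fun v y => ∑ x ∈ Finset.univ.filter (fun x => π x = y), a c v x)
        c := by
  have hmap : ∀ c ∈ Cf Z Λ, mp π c ∈ Cf Z Λ' := by
    intro c hc
    rw [mem_cf] at hc ⊢
    intro v hv
    show (c v).map π = none
    rw [hc v hv]
    rfl
  rw [← Finset.sum_fiberwise_of_maps_to hmap]
  refine Finset.sum_congr rfl fun c' hc' => ?_
  rw [← fib_one Z π (a c') c' hc', Finset.mul_sum]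
  refine Finset.sum_congr rfl fun c hc => ?_
  rw [(Finset.mem_filter.1 hc).2]

theorem cf_prod {R : Type} [CommSemiring R] (Z : Finset V) (F : Finset V → R)
    (a : V → Λ → R) :
    ∑ c ∈ Cf Z Λ, F (sp Z c) * om Z a c = ∑ s ∈ Z.powerset, F s * ∏ v ∈ s, ∑ x, a v x := by
  have hmap : ∀ c ∈ Cf Z Λ, sp Z c ∈ Z.powerset := by
    intro c _
    rw [Finset.mem_powerset]
    exact Finset.filter_subset _ _
  rw [← Finset.sum_fiberwise_of_maps_to hmap]
  refine Finset.sum_congr rfl fun s hs => ?_
  rw [Finset.mem_powerset] at hs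
  have h0 : ∑ c ∈ (Cf Z Λ).filter (fun c => sp Z c = s), om Z a c = ∏ v ∈ s, ∑ x, a v x := by
    have h1 : (Cf Z Λ).filter (fun c => sp Z c = s) = (Cf Z Λ).filter (fun c => ∀ v ∈ Z,
        c v ∈ (Finset.univ : Finset (Option Λ)).filter (fun o => o ≠ none ↔ v ∈ s)) := by
      refine Finset.filter_congr fun c hc => ?_
      constructor
      · rintro h v hv
        rw [Finset.mem_filter]
        refine ⟨Finset.mem_univ _, ?_⟩
        rw [← h, mem_sp]
        exact ⟨fun h2 => ⟨hv, h2⟩, fun h2 => h2.2⟩
      · intro h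
        ext v
        rw [mem_sp]
        constructor
        · rintro ⟨h2, h3⟩
          exact ((Finset.mem_filter.1 (h v h2)).2).1 h3
        · intro h2
          exact ⟨hs h2, ((Finset.mem_filter.1 (h v (hs h2))).2).2 h2⟩
    rw [h1]
    refine (cf_sum Z _ (fun v o => o.elim 1 (a v))).trans ?_
    refine (Finset.prod_subset hs fun v _ hv => ?_).symm.trans (Finset.prod_congr rfl fun v hv => ?_)
    · rw [Finset.sum_filter, Fintype.sum_option]
      simp [hv]
    · rw [Finset.sum_filter, Fintype.sum_option]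
      simp [hv]
  rw [← h0, Finset.mul_sum]
  refine Finset.sum_congr rfl fun c hc => ?_
  rw [(Finset.mem_filter.1 hc).2]

end H35.CF
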