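import Mathlib

/-!
# H35-CF: labelled finite sets (configurations)

A configuration is a function `c : V → Option Λ` with support in a finite set `Z`.
* `Cf Z Λ`: the finite set of all configurations. `om Z a c = ∏_{v ∈ Z} (c v).elim 1 (a v)`: product of the weights over the support.
* `mp π c`: change of labels. `sp Z c`: support. `pl Z c x`: the places with label `x`.
* `ct Z W c x`: the number of places with label `x` in the set `W`.
* `up c q l`: the configuration `c` with the labels `l k` at the places `q k`. `Fr Z W c m`: the injective `q : Fin m → V` with values in `W`, in `Z` and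
  outside the support of `c`.
-/

set_option autoImplicit false

open scoped Classical

noncomputable section

namespace H35.CF

variable {V Λ Λ' : Type}

/-- the configurations with support in `Z` -/
def Cf (Z : Finset V) (Λ : Type) [Fintype Λ] : Finset (V → Option Λ) :=
  (Finset.univ : Finset (Z → Option Λ)).image fun f v => if h : v ∈ Z then f ⟨v, h⟩ else none

/-- the product of the weights -/
def om {R : Type} [CommMonoid R] (Z : Finset V) (a : V → Λ → R) (c : V → Option Λ) : R :=
  ∏ v ∈ Z, (c v).elim 1 (a v)

/-- change of labels -/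
def mp (π : Λ → Λ') (c : V → Option Λ) : V → Option Λ' := fun v => (c v).map π

/-- the support -/
def sp (Z : Finset V) (c : V → Option Λ) : Finset V := Z.filter fun v => c v ≠ none

/-- the places with label `x` -/
def pl (Z : Finset V) (c : V → Option Λ) (x : Λ) : Finset V := Z.filter fun v => c v = some x

/-- the number of places with label `x` in `W` -/
def ct (Z : Finset V) (W : V → Prop) (c : V → Option Λ) (x : Λ) : ℕ := ((pl Z c x).filter W).card

/-- the labels `l k` are given to the places `q k` -/
def up {m : ℕ} (c : V → Option Λ) (q : Fin m → V) (l : Fin m → Λ) : V → Option Λ :=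
  fun v => if h : ∃ k, q k = v then some (l h.choose) else c v

/-- the tuples of different new places -/
def Fr (Z : Finset V) (W : V → Prop) (c : V → Option Λ) (m : ℕ) : Finset (Fin m → V) :=
  (Fintype.piFinset fun _ : Fin m => Z.filter fun v => W v ∧ c v = none).filter
    fun q => Function.Injective q

theorem mem_cf [Fintype Λ] {Z : Finset V} {c : V → Option Λ} :
    c ∈ Cf Z Λ ↔ ∀ v, v ∉ Z → c v = none := by
  unfold Cf
  rw [Finset.mem_image]
  constructor
  · rintro ⟨f, -, rfl⟩ v hv
    beta_reduce
    rw [dif_neg hv]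
  · intro h
    refine ⟨fun v => c v, Finset.mem_univ _, ?_⟩
    funext v
    beta_reduce
    by_cases hv : v ∈ Z
    · rw [dif_pos hv]
    · rw [dif_neg hv, h v hv]

theorem mem_sp {Z : Finset V} {c : V → Option Λ} {v : V} : v ∈ sp Z c ↔ v ∈ Z ∧ c v ≠ none := by
  unfold sp
  rw [Finset.mem_filter]

theorem mem_pl {Z : Finset V} {c : V → Option Λ} {x : Λ} {v : V} :
    v ∈ pl Z c x ↔ v ∈ Z ∧ c v = some x := by
  unfold pl
  rw [Finset.mem_filter]

theorem mem_fr {Z : Finset V} {W : V → Prop} {c : V → Option Λ} {m : ℕ} {q : Fin m → V} :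
    q ∈ Fr Z W c m ↔ (∀ k, q k ∈ Z ∧ W (q k) ∧ c (q k) = none) ∧ Function.Injective q := by
  unfold Fr
  rw [Finset.mem_filter, Fintype.mem_piFinset]
  constructor
  · rintro ⟨h1, h2⟩
    exact ⟨fun k => Finset.mem_filter.1 (h1 k), h2⟩
  · rintro ⟨h1, h2⟩
    exact ⟨fun k => Finset.mem_filter.2 (h1 k), h2⟩

theorem up_of {m : ℕ} (c : V → Option Λ) (q : Fin m → V) (l : Fin m → Λ)
    (hq : Function.Injective q) (k : Fin m) : up c q l (q k) = some (l k) := by
  have h : ∃ j, q j = q k := ⟨k, rfl⟩
  unfold up
  rw [dif_pos h, hq h.choose_spec]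

theorem up_ne {m : ℕ} (c : V → Option Λ) (q : Fin m → V) (l : Fin m → Λ) (v : V)
    (h : ∀ k, q k ≠ v) : up c q l v = c v := by
  unfold up
  rw [dif_neg]
  push Not
  exact h

theorem om_sp {R : Type} [CommMonoid R] (Z : Finset V) (a : V → Λ → R) (c : V → Option Λ) :
    om Z a c = ∏ v ∈ sp Z c, (c v).elim 1 (a v) := by
  unfold om sp
  rw [Finset.prod_filter]
  refine Finset.prod_congr rfl fun v _ => ?_
  by_cases h : c v = none
  · rw [if_neg (not_not.2 h), h]
    rfl
  · rw [if_pos h]

end H35.CF
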